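import Pool.Agent.J4H20.AS.Stm
import Pool.Agent.N855.SG.Cert

/-!
# Project AS6: the statement CNT
-/

set_option autoImplicit false

namespace Pool.Agent.J4H51.AS

open Polynomial Pool.Agent.R713.AS Pool.Agent.N855.SG Pool.Agent.J4H20.AS

/-- an interval in which exactly `m` elements of `D` are larger -/
theorem level (D : Finset ℝ) : (∀ d ∈ D, 0 < d) → ∀ b : ℝ, 0 < b → (∀ d ∈ D, d < b) →
    ∀ m : ℕ, m ≤ D.card → ∃ v₁ v₂ : ℝ, 0 < v₁ ∧ v₁ < v₂ ∧ v₂ ≤ b ∧ ∀ v : ℝ, v₁ < v → v < v₂ →
      v ∉ D ∧ (D.filter fun d => v < d).card = m := by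
  classical
  induction D using Finset.induction_on_max with
  | empty =>
    intro _ b hb _ m hm
    have hm0 : m = 0 := by simpa using hm
    subst hm0
    exact ⟨b / 2, b, by linarith, by linarith, le_rfl, fun v _ _ => by simp⟩
  | insert M D hM ih =>
    intro hpos b hb hlt m hm
    have hMn : M ∉ D := fun h => lt_irrefl _ (hM M h)
    have hM0 : 0 < M := hpos M (Finset.mem_insert_self _ _)
    have hMb : M < b := hlt M (Finset.mem_insert_self _ _)
    rcases Nat.eq_zero_or_pos m with rfl | hm0
    · refine ⟨M, b, hM0, hMb, le_rfl, fun v h1 _ => ⟨?_, ?_⟩⟩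
      · intro h
        rcases Finset.mem_insert.1 h with h | h
        · exact absurd h h1.ne'
        · exact absurd (hM v h) (not_lt.2 h1.le)
      · rw [Finset.card_eq_zero, Finset.filter_eq_empty_iff]
        intro d hd
        rcases Finset.mem_insert.1 hd with h | h
        · rw [h]
          exact not_lt.2 h1.le
        · exact not_lt.2 ((hM d h).le.trans h1.le)
    · rw [Finset.card_insert_of_notMem hMn] at hm
      obtain ⟨v₁, v₂, h1, h2, h3, h4⟩ := ih (fun d hd => hpos d (Finset.mem_insert_of_mem hd)) M hM0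
        hM (m - 1) (by omega)
      refine ⟨v₁, v₂, h1, h2, h3.trans hMb.le, fun v hv1 hv2 => ?_⟩
      obtain ⟨h5, h6⟩ := h4 v hv1 hv2
      have hvM : v < M := lt_of_lt_of_le hv2 h3
      refine ⟨fun h => ?_, ?_⟩
      · rcases Finset.mem_insert.1 h with h | h
        · exact absurd h hvM.ne
        · exact h5 h
      · rw [Finset.filter_insert, if_pos hvM, Finset.card_insert_of_notMem (by simp [hMn]), h6]
        omega

/-- the lobes: the gaps below `a j` in which the product is negative -/
def lobes (n : ℕ) : Finset (Fin n) :=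
  Finset.univ.filter fun j => j.val ≠ 0 ∧ (n - j.val) % 2 = 1

theorem card_lobes (n : ℕ) : n / 2 ≤ (lobes n).card := by
  classical
  have h : ∀ i ∈ (Finset.univ : Finset (Fin (n / 2))),
      (⟨n - 1 - 2 * i.val, by omega⟩ : Fin n) ∈ lobes n := by
    intro i _
    rw [lobes, Finset.mem_filter]
    refine ⟨Finset.mem_univ _, ?_, ?_⟩
    · show n - 1 - 2 * i.val ≠ 0
      omega
    · show (n - (n - 1 - 2 * i.val)) % 2 = 1
      omega
  have h2 := Finset.card_le_card_of_injOn (s := (Finset.univ : Finset (Fin (n / 2))))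
    (t := lobes n) (fun i => (⟨n - 1 - 2 * i.val, by omega⟩ : Fin n)) h (by
      intro i _ j _ hij
      have h3 := congrArg Fin.val hij
      simp only at h3
      ext
      omega)
  simpa using h2

/-- the count of the pieces -/
theorem sum_cnt {n : ℕ} (hn : 0 < n) (d : Fin n → ℝ) (v : ℝ) :
    ∑ j : Fin n, (if (n - j.val) % 2 = 1 then (if j.val = 0 then 1 else if v < d j then 2 else 0)
      else 0) = n % 2 + 2 * ((lobes n).filter fun j => v < d j).card := by
  classical
  have : NeZero n := ⟨hn.ne'⟩
  have h1 : ∀ j : Fin n, (if (n - j.val) % 2 = 1 then (if j.val = 0 then 1 else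
      if v < d j then 2 else 0) else 0) = (if j = 0 then n % 2 else 0) +
        (if (j.val ≠ 0 ∧ (n - j.val) % 2 = 1) ∧ v < d j then 2 else 0) := by
    intro j
    by_cases h0 : j = 0
    · subst h0
      have h2 : ((0 : Fin n) : ℕ) = 0 := rfl
      rw [if_pos (rfl : (0 : Fin n) = 0), h2]
      simp only [Nat.sub_zero, ne_eq, not_true_eq_false, false_and, if_false, add_zero, if_true]
      split_ifs with h3 <;> omega
    · have h2 : j.val ≠ 0 := fun h => h0 (Fin.ext (by simpa using h))
      rw [if_neg h0, if_neg h2, zero_add]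
      by_cases h3 : (n - j.val) % 2 = 1
      · by_cases h4 : v < d j
        · rw [if_pos h3, if_pos h4, if_pos ⟨⟨h2, h3⟩, h4⟩]
        · rw [if_pos h3, if_neg h4, if_neg fun h => h4 h.2]
      · rw [if_neg h3, if_neg fun h => h3 h.1.2]
  rw [Finset.sum_congr rfl fun j _ => h1 j, Finset.sum_add_distrib, Finset.sum_ite_eq' Finset.univ,
    if_pos (Finset.mem_univ _), ← Finset.sum_filter, Finset.sum_const, smul_eq_mul, mul_comm 2]
  congr 3
  ext j
  simp [lobes]

/-- the deepest point of a lobe -/
theorem deepest (F : ℝ[X]) (l r : ℝ) (hlr : l < r) (hl : F.eval l = 0) (hr : F.eval r = 0)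
    (hneg : ∀ x, l < x → x < r → F.eval x < 0) :
    ∃ c, l < c ∧ c < r ∧ (derivative F).eval c = 0 ∧ ∀ x, l < x → x < r → F.eval c ≤ F.eval x := by
  obtain ⟨c, hc, hmin⟩ := isCompact_Icc.exists_isMinOn (Set.nonempty_Icc.2 hlr.le)
    (F.continuous.continuousOn (s := Set.Icc l r))
  have hmin' : ∀ x ∈ Set.Icc l r, F.eval c ≤ F.eval x := fun x hx => hmin hx
  have hm : F.eval c < 0 := lt_of_le_of_lt (hmin' ((l + r) / 2) ⟨by linarith, by linarith⟩)
    (hneg _ (by linarith) (by linarith))
  have hlc : l < c := lt_of_le_of_ne hc.1 fun h => by rw [← h, hl] at hm; exact lt_irrefl _ hm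
  have hcr : c < r := lt_of_le_of_ne hc.2 fun h => by rw [h, hr] at hm; exact lt_irrefl _ hm
  refine ⟨c, hlc, hcr, ?_, fun x h1 h2 => hmin' x ⟨h1.le, h2.le⟩⟩
  have hloc : IsLocalMin (fun x => F.eval x) c :=
    Filter.mem_of_superset (Icc_mem_nhds hlc hcr) fun x hx => hmin' x hx
  exact hloc.hasDerivAt_eq_zero (F.hasDerivAt c)

theorem t_CNT : S_CNT := by
  classical
  intro T hT hnt r hr hpar
  set n := T.card with hn
  have hn0 : 0 < n := Finset.card_pos.2 hT
  have : NeZero n := ⟨hn0.ne'⟩
  have : Nonempty (Fin n) := ⟨0⟩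
  set A : Fin n → ℝ := fun i => T.orderEmbOfFin hn.symm i with hAdef
  have hA : ∀ i j, i < j → A i < A j := fun i j hij => (T.orderEmbOfFin hn.symm).strictMono hij
  have hPP : RP T = PP A := by
    rw [RP, PP]
    have h1 : T = Finset.univ.image A := by
      rw [hAdef]
      exact (Finset.image_orderEmbOfFin_univ T hn.symm).symm
    conv_lhs => rw [h1]
    rw [Finset.prod_image]
    intro i _ j _ hij
    exact (T.orderEmbOfFin hn.symm).injective hij
  have hroot : ∀ j, (PP A).eval (A j) = 0 := fun j => by
    rw [eval_PP]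
    exact Finset.prod_eq_zero (Finset.mem_univ j) (sub_self _)
  have hprd : ∀ k : Fin n, k.val ≠ 0 → prd k < k := by
    intro k hk0
    rw [Fin.lt_def]
    show k.val - 1 < k.val
    omega
  have hle : ∀ i k : Fin n, i < k → A i ≤ A (prd k) := by
    intro i k hi
    rcases eq_or_ne i (prd k) with h5 | h5
    · rw [h5]
    · refine (hA i _ (lt_of_le_of_ne ?_ h5)).le
      rw [Fin.le_def]
      show i.val ≤ k.val - 1
      have := Fin.lt_def.1 hi
      omega
  have hnegl : ∀ k ∈ lobes n, ∀ x, A (prd k) < x → x < A k → (PP A).eval x < 0 := by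
    intro k hk x h1 h2
    rw [lobes, Finset.mem_filter] at hk
    have h3 := sign A hA k x h2 fun i hi => lt_of_le_of_lt (hle i k hi) h1
    rw [(Nat.odd_iff.2 hk.2.2).neg_one_pow] at h3
    rw [eval_PP]
    linarith
  have hex : ∀ k : Fin n, ∃ c : ℝ, k ∈ lobes n → A (prd k) < c ∧ c < A k ∧
      (derivative (PP A)).eval c = 0 ∧ ∀ x, A (prd k) < x → x < A k →
        (PP A).eval c ≤ (PP A).eval x := by
    intro k
    by_cases hk : k ∈ lobes n
    · have hk' := hk
      rw [lobes, Finset.mem_filter] at hk'
      obtain ⟨c, hc⟩ := deepest (PP A) (A (prd k)) (A k) (hA _ _ (hprd k hk'.2.1)) (hroot _)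
        (hroot _) (hnegl k hk)
      exact ⟨c, fun _ => hc⟩
    · exact ⟨0, fun h => absurd h hk⟩
  choose c hc using hex
  set d : Fin n → ℝ := fun k => - (PP A).eval (c k) with hd
  have hdpos : ∀ k ∈ lobes n, 0 < d k := fun k hk => by
    have := hnegl k hk (c k) (hc k hk).1 (hc k hk).2.1
    simp only [hd]
    linarith
  have hcne : ∀ k ∈ lobes n, ∀ k' ∈ lobes n, k < k' → c k < c k' := by
    intro k hk k' hk' h
    have h1 := (hc k hk).2.1
    have h2 := (hc k' hk').1
    have h3 := hle k k' h
    linarith
  have hdinj : Set.InjOn d (lobes n : Set (Fin n)) := by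
    intro k hk k' hk' h
    by_contra hne
    have hck : c k ≠ c k' := by
      rcases lt_or_gt_of_ne hne with h1 | h1
      · exact (hcne k hk k' hk' h1).ne
      · exact (hcne k' hk' k hk h1).ne'
    rw [hPP] at hnt
    refine hnt (c k) (c k') (hc k hk).2.2.1 (hc k' hk').2.2.1 hck ?_
    simp only [hd, neg_inj] at h
    exact h
  -- the levels
  have hcard : r / 2 ≤ ((lobes n).image d).card := by
    rw [Finset.card_image_of_injOn hdinj]
    exact le_trans (Nat.div_le_div_right hr) (card_lobes n)
  obtain ⟨b, hb0, hb⟩ : ∃ b : ℝ, 0 < b ∧ ∀ x ∈ (lobes n).image d, x < b := by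
    obtain ⟨b, hb⟩ := ((lobes n).image d).bddAbove
    refine ⟨max b 0 + 1, by positivity, fun x hx => ?_⟩
    have := hb hx
    have := le_max_left b 0
    linarith
  obtain ⟨v₁, v₂, h1, h2, -, h4⟩ := level ((lobes n).image d) (by
    intro x hx
    obtain ⟨k, hk, rfl⟩ := Finset.mem_image.1 hx
    exact hdpos k hk) b hb0 hb (r / 2) hcard
  refine ⟨v₁, v₂, h1, h2, fun v hv1 hv2 => ?_⟩
  obtain ⟨h5, h6⟩ := h4 v hv1 hv2
  have hv : 0 < v := h1.trans hv1
  have hfil : ((lobes n).filter fun j => v < d j).card = r / 2 := by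
    rw [← h6, Finset.filter_image, Finset.card_image_of_injOn]
    exact hdinj.mono (by
      intro k hk
      exact (Finset.mem_filter.1 hk).1)
  have hr' : r = ∑ j : Fin n, (if (n - j.val) % 2 = 1 then (if j.val = 0 then 1 else
      if v < d j then 2 else 0) else 0) := by
    rw [sum_cnt hn0 d v, hfil]
    omega
  rw [hPP, hr']
  refine ncard_pieces (κ := Fin n) _ ?_ (fun j => {x | x < A j ∧ ∀ i, i < j → A i < x}) ?_ ?_ _ ?_
  · have h1 : PP A + C v ≠ 0 := by
      intro h
      have h2 := congrArg (eval (A 0)) h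
      rw [eval_add, eval_C, eval_zero, hroot] at h2
      linarith
    refine (Polynomial.finite_setOfPred_isRoot h1).subset fun x hx => ?_
    simp only [Set.mem_ofPred_eq, IsRoot.def, eval_add, eval_C] at hx ⊢
    linarith
  · intro x hx
    simp only [Set.mem_ofPred_eq] at hx
    rw [eval_PP] at hx
    have h1 : ∃ i, x < A i := by
      by_contra hcon
      push Not at hcon
      have : 0 ≤ ∏ i, (x - A i) := Finset.prod_nonneg fun i _ => by
        have := hcon i
        linarith
      linarith
    obtain ⟨i0, hi0⟩ := h1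
    obtain ⟨j, hj, hmin⟩ := WellFounded.has_min (wellFounded_lt (α := Fin n)) {i | x < A i} ⟨i0, hi0⟩
    refine ⟨j, hj, fun i hi => ?_⟩
    have h2 : A i ≤ x := not_lt.1 fun h3 => hmin i h3 hi
    refine lt_of_le_of_ne h2 fun h3 => ?_
    rw [Finset.prod_eq_zero (Finset.mem_univ i) (by rw [h3, sub_self])] at hx
    linarith
  · rintro k k' x ⟨hk1, hk2⟩ ⟨hk1', hk2'⟩
    rcases lt_trichotomy k k' with h3 | h3 | h3
    · exact absurd (hk2' k h3) (not_lt.2 hk1.le)
    · exact h3
    · exact absurd (hk2 k' h3) (not_lt.2 hk1'.le)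
  · intro k
    by_cases hp : (n - k.val) % 2 = 1
    · rw [if_pos hp]
      by_cases hk0 : k.val = 0
      · rw [if_pos hk0]
        have hI : {x | x < A k ∧ ∀ i, i < k → A i < x} = Set.Iio (A k) := by
          ext x
          simp only [Set.mem_ofPred_eq, Set.mem_Iio, and_iff_left_iff_imp]
          intro _ i hi
          exact absurd hi (by rw [Fin.lt_def]; omega)
        rw [hI]
        have hg : ∀ i, A k ≤ A i := fun i => by
          rcases eq_or_ne k i with h3 | h3
          · rw [h3]
          · exact (hA k i (lt_of_le_of_ne (by rw [Fin.le_def]; omega) h3)).le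
        refine left' A (A k) (A k - (1 + v)) v hg (hroot k) hv (by linarith) ?_
        rw [eval_PP]
        have h3 := sign A hA k (A k - (1 + v)) (by linarith) (fun i hi => absurd hi (by
          rw [Fin.lt_def]; omega))
        have hodd : Odd (n - k.val) := Nat.odd_iff.2 hp
        rw [hodd.neg_one_pow] at h3
        have h4 : 1 + v ≤ |∏ i, (A k - (1 + v) - A i)| := by
          rw [Finset.abs_prod]
          calc 1 + v = |A k - (1 + v) - A k| * 1 := by
                rw [mul_one, abs_of_nonpos (by linarith)]; ring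
            _ ≤ |A k - (1 + v) - A k| * ∏ i ∈ Finset.univ.erase k, |A k - (1 + v) - A i| := by
                refine mul_le_mul_of_nonneg_left ?_ (abs_nonneg _)
                have : ∀ i ∈ Finset.univ.erase k, (1 : ℝ) ≤ |A k - (1 + v) - A i| := fun i _ => by
                  have := hg i
                  rw [abs_of_nonpos (by linarith)]
                  linarith
                calc (1 : ℝ) = ∏ i ∈ Finset.univ.erase k, (1 : ℝ) := by simp
                  _ ≤ _ := Finset.prod_le_prod (fun _ _ => zero_le_one) this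
            _ = _ := Finset.mul_prod_erase Finset.univ (fun i => |A k - (1 + v) - A i|)
                (Finset.mem_univ k)
        rw [abs_of_neg (by linarith)] at h4
        linarith
      · rw [if_neg hk0]
        have hk : k ∈ lobes n := by
          rw [lobes, Finset.mem_filter]
          exact ⟨Finset.mem_univ _, hk0, hp⟩
        have hI : {x | x < A k ∧ ∀ i, i < k → A i < x} = Set.Ioo (A (prd k)) (A k) := by
          ext x
          simp only [Set.mem_ofPred_eq, Set.mem_Ioo]
          constructor
          · rintro ⟨h3, h4⟩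
            exact ⟨h4 _ (hprd k hk0), h3⟩
          · rintro ⟨h3, h4⟩
            exact ⟨h4, fun i hi => lt_of_le_of_lt (hle i k hi) h3⟩
        rw [hI]
        by_cases hD : v < d k
        · rw [if_pos hD]
          refine gap A (A (prd k)) (A k) (c k) v ?_ (hroot _) (hroot _) (hc k hk).1 (hc k hk).2.1 hv
            ?_
          · intro i
            rcases lt_or_ge i k with h3 | h3
            · left
              exact hle i k h3
            · right
              rcases h3.eq_or_lt with h5 | h5
              · rw [h5]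
              · exact (hA _ _ h5).le
          · simp only [hd] at hD
            linarith
        · rw [if_neg hD]
          have hne : v ≠ d k := fun h => h5 (h ▸ Finset.mem_image_of_mem d hk)
          have hlt : d k < v := lt_of_le_of_ne (not_lt.1 hD) hne.symm
          have hset : {x : ℝ | (PP A).eval x = - v} ∩ Set.Ioo (A (prd k)) (A k) = ∅ := by
            rw [Set.eq_empty_iff_forall_notMem]
            rintro x ⟨hx, hx1, hx2⟩
            simp only [Set.mem_ofPred_eq] at hx
            have h3 := (hc k hk).2.2.2 x hx1 hx2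
            simp only [hd] at hlt
            linarith
          rw [hset, Set.ncard_empty]
    · rw [if_neg hp]
      have hset : {x : ℝ | (PP A).eval x = - v} ∩ {x | x < A k ∧ ∀ i, i < k → A i < x} = ∅ := by
        rw [Set.eq_empty_iff_forall_notMem]
        rintro x ⟨hx, hx1, hx2⟩
        simp only [Set.mem_ofPred_eq] at hx
        rw [eval_PP] at hx
        have h3 := sign A hA k x hx1 hx2
        have heven : Even (n - k.val) := Nat.even_iff.2 (by omega)
        rw [heven.neg_one_pow, hx] at h3
        linarith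
      rw [hset, Set.ncard_empty]

end Pool.Agent.J4H51.AS
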